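import Pool.Agent.Helper18.SU.Goals

set_option autoImplicit false

namespace Pool.Agent.Helper60.SU

open Pool.Agent.Helper18.SU

lemma arcNot {V : Type} (A : V → V → Prop) (d : Bool) (u v : V) :
    Arc A (!d) u v ↔ Arc A d v u := by
  cases d <;> simp [Arc]

lemma arcTot {V : Type} {A : V → V → Prop} (hA : Tour A) (d : Bool) {u v : V} (h : u ≠ v) :
    Arc A d u v ∨ Arc A d v u := by
  cases d
  · simpa [Arc] using (hA.2 u v h).symm
  · simpa [Arc] using hA.2 u v h

lemma arcNe {V : Type} {A : V → V → Prop} (hA : Tour A) (d : Bool) {u v : V}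
    (h : Arc A d u v) : u ≠ v := by
  rintro rfl
  cases d
  · exact hA.1 _ _ h h
  · exact hA.1 _ _ h h

lemma origMem {V : Type} [DecidableEq V] {A : V → V → Prop} {s : List Bool} {X : Finset V}
    {x : V} (h : Orig A s X x) : x ∈ X := by
  cases s with
  | nil => exact h
  | cons d s => exact h.1

lemma origMono {V : Type} [DecidableEq V] {A : V → V → Prop} (s : List Bool) :
    ∀ {X X' : Finset V} {x : V}, X ⊆ X' → Orig A s X x → Orig A s X' x := by
  induction s with
  | nil => intro X X' x h hx; exact h hx
  | cons d s ih =>
    intro X X' x h hx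
    obtain ⟨h1, y, hy, ha, ho⟩ := hx
    exact ⟨h h1, y, Finset.erase_subset_erase x h hy, ha, ih (Finset.erase_subset_erase x h) ho⟩

lemma blkLe (d : Bool) (s : List Bool) : blk d s ≤ s.length := by
  induction s with
  | nil => simp [blk]
  | cons e s ih =>
    simp only [blk, List.length_cons]
    split_ifs <;> omega

theorem SPB (h1 : REA_stmt) (h2 : SUB_stmt) (h3 : PTL_stmt) : SPB_stmt := by
  classical
  intro m hm V _ A hA d s X hsm hX x hx y hy hxy
  have hxny : x ≠ y := arcNe hA d hxy
  simp only [List.length_cons] at hsm hX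
  set e := !d with he
  have hb := blkLe e s
  -- origin rule
  have rule : ∀ (u w : V), u ∈ X → Arc A d u w → Orig A (e :: s) (X.erase u) w →
      Orig A (d :: e :: s) X u := by
    intro u w hu ha ho
    exact ⟨hu, w, origMem ho, ha, ho⟩
  have sub1 : ∀ (Y W : Finset V), Y.card = s.length + 3 → W ⊆ Y → 2 ≤ W.card →
      (blk e s + 2 ≤ W.card ∨ ∃ w ∈ W, blk e s + 2 ≤ (Reach A e Y w).card) →
      ∃ w ∈ W, Orig A (e :: s) Y w := by
    intro Y W hY hWY hW hor
    exact h2 s.length (hm _ (by omega)) V A hA e s Y W rfl hY hWY hW hor
  by_cases hN : 2 ≤ (X.filter (fun z => Arc A d x z)).card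
  · -- Case 1
    set U := X.filter (fun z => Arc A d x z) with hU
    have hUY : U ⊆ X.erase x := by
      intro u hu
      rw [hU, Finset.mem_filter] at hu
      exact Finset.mem_erase.2 ⟨(arcNe hA d hu.2).symm, hu.1⟩
    have hYc : (X.erase x).card = s.length + 3 := by
      rw [Finset.card_erase_of_mem hx]; omega
    have hyU : y ∈ U := by rw [hU, Finset.mem_filter]; exact ⟨hy, hxy⟩
    by_cases h1a : ∃ u ∈ U, blk e s + 2 ≤ (Reach A e (X.erase x) u).card
    · obtain ⟨w, hw, ho⟩ := sub1 _ U hYc hUY hN (Or.inr h1a)
      left
      rw [hU, Finset.mem_filter] at hw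
      exact rule x w hx hw.2 ho
    · push Not at h1a
      obtain ⟨r1, r2, r3, r4, r5, r6, r7, r8⟩ := h1 V A hA e (X.erase x)
      obtain ⟨u0, hu0, hmax⟩ := r8 U hUY ⟨y, hyU⟩
      set A0 := Reach A e (X.erase x) u0 with hA0
      have hUA : U ⊆ A0 := fun v hv => hmax v hv (r2 v (hUY hv))
      have hA0Y : A0 ⊆ X.erase x := r1 u0
      have hA0c : A0.card < blk e s + 2 := h1a u0 hu0
      set B0 := (X.erase x) \ A0 with hB0
      have hBc : 2 ≤ B0.card := by
        rw [hB0, Finset.card_sdiff_of_subset hA0Y]; omega
      have hB0Y : B0 ⊆ X.erase x := Finset.sdiff_subset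
      have hdom : ∀ a ∈ A0, ∀ b ∈ B0, Arc A d a b := by
        intro a ha b hb'
        have hbn : b ∉ A0 := (Finset.mem_sdiff.1 hb').2
        have hne : a ≠ b := fun hab => hbn (hab ▸ ha)
        rcases arcTot hA d hne with h | h
        · exact h
        · exact absurd (r4 u0 (hUY hu0) a ha b (hB0Y hb') ((arcNot A d a b).2 h)) hbn
      have hyA : y ∈ A0 := hUA hyU
      have hB0Y' : B0 ⊆ X.erase y := by
        intro b hb'
        refine Finset.mem_erase.2 ⟨?_, (Finset.mem_erase.1 (hB0Y hb')).2⟩
        rintro rfl
        exact (Finset.mem_sdiff.1 hb').2 hyA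
      have hY'c : (X.erase y).card = s.length + 3 := by
        rw [Finset.card_erase_of_mem hy]; omega
      obtain ⟨q1, q2, q3, q4, q5, q6, q7, q8⟩ := h1 V A hA e (X.erase y)
      obtain ⟨b, hbB, hbmax⟩ := q8 B0 hB0Y' (Finset.card_pos.1 (by omega))
      have hbY' : b ∈ X.erase y := hB0Y' hbB
      have hR : (X.erase y) ⊆ Reach A e (X.erase y) b := by
        have hAr : ∀ a ∈ A0, a ≠ y → a ∈ Reach A e (X.erase y) b := by
          intro a ha hay
          refine q4 b hbY' b (q2 b hbY') a ?_ ((arcNot A d b a).2 (hdom a ha b hbB))
          exact Finset.mem_erase.2 ⟨hay, (Finset.mem_erase.1 (hA0Y ha)).2⟩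
        intro z hz
        by_cases hzx : z = x
        · obtain ⟨u, huU, huy⟩ : ∃ u ∈ U, u ≠ y := by
            by_contra hcon
            push Not at hcon
            have : U ⊆ {y} := fun u hu => Finset.mem_singleton.2 (hcon u hu)
            have := Finset.card_le_card this
            simp at this
            omega
          rw [hzx]
          have hxu : Arc A d x u := (Finset.mem_filter.1 huU).2
          exact q4 b hbY' u (hAr u (hUA huU) huy) x (hzx ▸ hz) ((arcNot A d u x).2 hxu)
        · by_cases hzA : z ∈ A0
          · exact hAr z hzA (Finset.mem_erase.1 hz).1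
          · have hzB : z ∈ B0 := by
              rw [hB0, Finset.mem_sdiff]
              exact ⟨Finset.mem_erase.2 ⟨hzx, (Finset.mem_erase.1 hz).2⟩, hzA⟩
            exact hbmax z hzB (q2 z hz)
      obtain ⟨w, hw, ho⟩ := sub1 _ B0 hY'c hB0Y' hBc
        (Or.inr ⟨b, hbB, by have := Finset.card_le_card hR; omega⟩)
      right
      exact rule y w hy (hdom y hyA w hw) ho
  · -- Case 2
    have hall : ∀ z ∈ X, z ≠ x → z ≠ y → Arc A d z x := by
      intro z hz hzx hzy
      rcases arcTot hA d hzx with h | h
      · exact h
      · exfalso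
        apply hN
        have : ({y, z} : Finset V) ⊆ X.filter (fun z => Arc A d x z) := by
          intro w hw
          rcases Finset.mem_insert.1 hw with rfl | hw
          · exact Finset.mem_filter.2 ⟨hy, hxy⟩
          · rw [Finset.mem_singleton] at hw
            subst hw
            exact Finset.mem_filter.2 ⟨hz, h⟩
        have h2' := Finset.card_le_card this
        rw [Finset.card_pair (Ne.symm hzy)] at h2'
        exact h2'
    set Z := (X.erase x).erase y with hZ
    have hyX' : y ∈ X.erase x := Finset.mem_erase.2 ⟨hxny.symm, hy⟩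
    have hZc : Z.card = s.length + 2 := by
      rw [hZ, Finset.card_erase_of_mem hyX', Finset.card_erase_of_mem hx]; omega
    have hZsub : Z ⊆ X.erase y := by
      intro z hz
      rw [hZ, Finset.mem_erase, Finset.mem_erase] at hz
      exact Finset.mem_erase.2 ⟨hz.1, hz.2.2⟩
    have hY'c : (X.erase y).card = s.length + 3 := by
      rw [Finset.card_erase_of_mem hy]; omega
    have xobs : ∀ w, Arc A d w y → Orig A s Z w → Orig A (d :: e :: s) X x := by
      intro w hw ho
      refine rule x y hx hxy ⟨hyX', w, origMem ho, (arcNot A d y w).2 hw, ho⟩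
    set U := Z.filter (fun z => Arc A d y z) with hU
    have hUZ : U ⊆ Z := Finset.filter_subset _ _
    have hWy : ∀ w ∈ Z, w ∉ U → Arc A d w y := by
      intro w hw hwU
      have hne : w ≠ y := (Finset.mem_erase.1 hw).1
      rcases arcTot hA d hne with h | h
      · exact h
      · exact absurd (Finset.mem_filter.2 ⟨hw, h⟩) hwU
    by_cases hU0 : U = ∅
    · -- 2a
      obtain ⟨w, ho⟩ := h3 m hm V A hA s Z (by omega) (by omega)
      left
      exact xobs w (hWy w (origMem ho) (by rw [hU0]; simp)) ho
    · by_cases hU1 : U.card = 1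
      · -- 2b
        have hWc : (Z \ U).card = s.length + 1 := by
          rw [Finset.card_sdiff_of_subset hUZ]; omega
        left
        cases hs : s with
        | nil =>
          rw [hs] at hWc
          obtain ⟨w, hw⟩ := Finset.card_pos.1 (show 0 < (Z \ U).card by rw [hWc]; simp)
          rw [Finset.mem_sdiff] at hw
          have := xobs w (hWy w hw.1 hw.2) (by rw [hs]; exact hw.1)
          rw [hs] at this
          exact this
        | cons f s' =>
          have hl : s.length = s'.length + 1 := by rw [hs]; rfl
          have hbf := blkLe f s'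
          obtain ⟨w, hw, ho⟩ := h2 s'.length (hm _ (by omega)) V A hA f s' Z (Z \ U) rfl
            (by omega) Finset.sdiff_subset (by omega) (Or.inl (by omega))
          rw [Finset.mem_sdiff] at hw
          have := xobs w (hWy w hw.1 hw.2) (by rw [hs]; exact ho)
          rw [hs] at this
          exact this
      · have hU2 : 2 ≤ U.card := by
          have : U.card ≠ 0 := fun h => hU0 (Finset.card_eq_zero.1 h)
          omega
        obtain ⟨r1, r2, r3, r4, r5, r6, r7, r8⟩ := h1 V A hA e Z
        by_cases h2c : ∃ u ∈ U, blk e s + 2 ≤ (Reach A e Z u).card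
        · -- 2c
          obtain ⟨u, huU, huc⟩ := h2c
          have hmono := (h1 V A hA e (X.erase y)).2.2.2.2.2.1 u Z hZsub
          have := Finset.card_le_card hmono
          obtain ⟨w, hw, ho⟩ := sub1 _ U hY'c (hUZ.trans hZsub) hU2
            (Or.inr ⟨u, huU, by omega⟩)
          right
          exact rule y w hy (Finset.mem_filter.1 hw).2 ho
        · -- 2d
          push Not at h2c
          obtain ⟨y0, hy0⟩ := Finset.card_pos.1 (show 0 < U.card by omega)
          obtain ⟨u0, hu0, hmax⟩ := r8 U hUZ ⟨y0, hy0⟩
          set A0 := Reach A e Z u0 with hA0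
          have hUA : U ⊆ A0 := fun v hv => hmax v hv (r2 v (hUZ hv))
          have hA0Z : A0 ⊆ Z := r1 u0
          have hA0c : A0.card < blk e s + 2 := h2c u0 hu0
          have hA0c2 : 2 ≤ A0.card := hU2.trans (Finset.card_le_card hUA)
          set B0 := Z \ A0 with hB0
          have hB0Z : B0 ⊆ Z := Finset.sdiff_subset
          have hB0c : B0.card + A0.card = s.length + 2 := by
            rw [hB0, Finset.card_sdiff_of_subset hA0Z]
            have := Finset.card_le_card hA0Z
            omega
          have hdom : ∀ a ∈ A0, ∀ b ∈ B0, Arc A d a b := by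
            intro a ha b hb'
            have hbn : b ∉ A0 := (Finset.mem_sdiff.1 hb').2
            have hne : a ≠ b := fun hab => hbn (hab ▸ ha)
            rcases arcTot hA d hne with h | h
            · exact h
            · exact absurd (r4 u0 (hUZ hu0) a ha b (hB0Z hb') ((arcNot A d a b).2 h)) hbn
          have hBW : ∀ b ∈ B0, Arc A d b y := by
            intro b hb'
            exact hWy b (hB0Z hb') (fun h => (Finset.mem_sdiff.1 hb').2 (hUA h))
          left
          -- s = e :: s'
          obtain ⟨s', hs⟩ : ∃ s', s = e :: s' := by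
            cases hs : s with
            | nil =>
              exfalso
              rw [hs] at hA0c
              simp only [blk] at hA0c
              omega
            | cons f s' =>
              by_cases hfe : f = e
              · exact ⟨s', by rw [hfe]⟩
              · exfalso
                rw [hs] at hA0c
                simp only [blk, if_neg hfe] at hA0c
                omega
          have hl : s.length = s'.length + 1 := by rw [hs]; rfl
          have hblk : blk e s = blk e s' + 1 := by rw [hs]; simp [blk]
          have hb' := blkLe e s'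
          by_cases hB2 : 2 ≤ B0.card
          · -- 2d1
            obtain ⟨b, hbB, hbmax⟩ := r8 B0 hB0Z (Finset.card_pos.1 (by omega))
            have hR : Z ⊆ Reach A e Z b := by
              intro z hz
              by_cases hzA : z ∈ A0
              · exact r4 b (hB0Z hbB) b (r2 b (hB0Z hbB)) z hz
                  ((arcNot A d b z).2 (hdom z hzA b hbB))
              · exact hbmax z (Finset.mem_sdiff.2 ⟨hz, hzA⟩) (r2 z hz)
            obtain ⟨w, hw, ho⟩ := h2 s'.length (hm _ (by omega)) V A hA e s' Z B0 rfl
              (by omega) hB0Z hB2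
              (Or.inr ⟨b, hbB, by have := Finset.card_le_card hR; omega⟩)
            exact xobs w (hBW w hw) (by rw [hs]; exact ho)
          · -- 2d2
            obtain ⟨b, hbB⟩ := Finset.card_pos.1 (show 0 < B0.card by omega)
            obtain ⟨a, ho⟩ := h3 m hm V A hA s' A0 (by omega) (by omega)
            have haA : a ∈ A0 := origMem ho
            have hbn : b ∉ A0 := (Finset.mem_sdiff.1 hbB).2
            have hsubs : A0 ⊆ Z.erase b := by
              intro z hz
              exact Finset.mem_erase.2 ⟨fun h => hbn (h ▸ hz), hA0Z hz⟩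
            refine xobs b (hBW b hbB) ?_
            rw [hs]
            exact ⟨hB0Z hbB, a, hsubs haA, (arcNot A d b a).2 (hdom a haA b hbB),
              origMono s' hsubs ho⟩

end Pool.Agent.Helper60.SU
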